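import Pool.Agent.Helper19.TW.C5a
import Pool.Agent.Helper45.TW.A1

/-!
# Module C5b: leading coefficient, degree and residue symbol of a rational function
-/

set_option autoImplicit false

namespace Pool.Agent.Helper54.PT

open Polynomial Finset Filter Topology Module Pool.Agent.Helper47.BSD

section Global

variable {F : Type} [Field F]

theorem lcK_ne_zero {x : RatFunc F} (hx : x ≠ 0) : lcK x ≠ 0 :=
  leadingCoeff_ne_zero.2 (RatFunc.num_ne_zero hx)

theorem lcK_mul {x y : RatFunc F} (hx : x ≠ 0) (hy : y ≠ 0) : lcK (x * y) = lcK x * lcK y := by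
  have h := congrArg leadingCoeff (RatFunc.num_denom_mul x y)
  rw [leadingCoeff_mul, leadingCoeff_mul, leadingCoeff_mul, leadingCoeff_mul,
    (RatFunc.monic_denom x).leadingCoeff, (RatFunc.monic_denom y).leadingCoeff,
    (RatFunc.monic_denom (x * y)).leadingCoeff, mul_one, mul_one, mul_one] at h
  exact h

theorem lcK_poly (f : F[X]) : lcK (algebraMap F[X] (RatFunc F) f) = f.leadingCoeff := by
  rw [lcK, RatFunc.num_algebraMap]

/-- the factorisation of a polynomial into monic primes -/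
theorem c5_factor {f : F[X]} (hf : f ≠ 0) (t : Finset (Prm F)) (ht : ∀ Q : Prm F, Q.1 ∣ f → Q ∈ t) :
    f = C f.leadingCoeff * ∏ Q ∈ t, Q.1 ^ multiplicity Q.1 f := by
  classical
  have hmon : (∏ Q ∈ t, Q.1 ^ multiplicity Q.1 f).Monic :=
    monic_prod_of_monic _ _ fun Q _ => Q.2.1.pow _
  have hm0 : ∀ q ∈ UniqueFactorizationMonoid.normalizedFactors f, q.Monic := by
    intro q hq
    have h1 := UniqueFactorizationMonoid.normalize_normalized_factor q hq
    rw [← h1]
    exact Polynomial.monic_normalize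
      (UniqueFactorizationMonoid.prime_of_normalized_factor q hq).ne_zero
  have h1 : (UniqueFactorizationMonoid.normalizedFactors f).prod =
      ∏ Q ∈ t, Q.1 ^ multiplicity Q.1 f := by
    rw [Finset.prod_multiset_count]
    have h2 : (t.filter fun Q => Q.1 ∣ f).image (fun Q : Prm F => (Q.1 : F[X])) =
        (UniqueFactorizationMonoid.normalizedFactors f).toFinset := by
      ext q
      rw [Finset.mem_image, Multiset.mem_toFinset]
      constructor
      · rintro ⟨Q, hQ, rfl⟩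
        rw [Finset.mem_filter] at hQ
        obtain ⟨q, hq, h2⟩ :=
          UniqueFactorizationMonoid.exists_mem_normalizedFactors_of_dvd hf Q.2.2 hQ.2
        have h3 : Q.1 = q := eq_of_monic_of_associated Q.2.1 (hm0 q hq) h2
        have h4 : Q.1 ∈ UniqueFactorizationMonoid.normalizedFactors f := by
          rw [h3]
          exact hq
        exact h4
      · intro hq
        have hi := UniqueFactorizationMonoid.irreducible_of_normalized_factor q hq
        have hd := UniqueFactorizationMonoid.dvd_of_mem_normalizedFactors hq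
        exact ⟨⟨q, hm0 q hq, hi⟩, Finset.mem_filter.2 ⟨ht _ hd, hd⟩, rfl⟩
    have hinj : Set.InjOn (fun Q : Prm F => (Q.1 : F[X])) (t.filter fun Q => Q.1 ∣ f) :=
      fun Q _ Q' _ h => Subtype.ext h
    rw [← h2, Finset.prod_image hinj]
    have h5 : ∏ Q ∈ t.filter (fun Q => Q.1 ∣ f), Q.1 ^ multiplicity Q.1 f =
        ∏ Q ∈ t, Q.1 ^ multiplicity Q.1 f := by
      refine Finset.prod_subset (Finset.filter_subset _ _) fun Q hQ hn => ?_
      rw [c5_mult_eq_zero fun h => hn (Finset.mem_filter.2 ⟨hQ, h⟩), pow_zero]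
    rw [← h5]
    refine Finset.prod_congr rfl fun Q hQ => ?_
    have hn : normalize Q.1 = Q.1 := Q.2.1.normalize_eq_self
    have h6 := UniqueFactorizationMonoid.emultiplicity_eq_count_normalizedFactors Q.2.2 hf
    rw [hn, (c5_fin Q hf).emultiplicity_eq_multiplicity] at h6
    have h7 : multiplicity Q.1 f =
        Multiset.count Q.1 (UniqueFactorizationMonoid.normalizedFactors f) := by exact_mod_cast h6
    rw [h7]
  have h3 := UniqueFactorizationMonoid.prod_normalizedFactors hf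
  rw [h1] at h3
  obtain ⟨u, hu⟩ := h3
  obtain ⟨c, hc, hcu⟩ := Polynomial.isUnit_iff.1 u.isUnit
  rw [← hcu] at hu
  have h8 : f.leadingCoeff = c := by
    rw [← hu, leadingCoeff_mul, hmon.leadingCoeff, leadingCoeff_C, one_mul]
  rw [h8, mul_comm]
  exact hu.symm

theorem c5_natDegree {f : F[X]} (hf : f ≠ 0) (t : Finset (Prm F))
    (ht : ∀ Q : Prm F, Q.1 ∣ f → Q ∈ t) :
    f.natDegree = ∑ Q ∈ t, multiplicity Q.1 f * Q.1.natDegree := by
  have h := congrArg natDegree (c5_factor hf t ht)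
  rw [natDegree_C_mul (leadingCoeff_ne_zero.2 hf), natDegree_prod_of_monic] at h
  · rw [h]
    refine Finset.sum_congr rfl fun Q _ => ?_
    rw [natDegree_pow]
  · exact fun Q _ => Q.2.1.pow _

theorem intDegree_eq {x : RatFunc F} (hx : x ≠ 0) :
    x.intDegree = ∑ᶠ Q : Prm F, ordK Q x * Q.1.natDegree := by
  classical
  have h1 := RatFunc.num_ne_zero hx
  have h2 := RatFunc.denom_ne_zero x
  set t : Finset (Prm F) := (c5_dvd_finite h1).toFinset ∪ (c5_dvd_finite h2).toFinset with ht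
  have t1 : ∀ Q : Prm F, Q.1 ∣ x.num → Q ∈ t := fun Q hQ =>
    Finset.mem_union_left _ ((c5_dvd_finite h1).mem_toFinset.2 hQ)
  have t2 : ∀ Q : Prm F, Q.1 ∣ x.denom → Q ∈ t := fun Q hQ =>
    Finset.mem_union_right _ ((c5_dvd_finite h2).mem_toFinset.2 hQ)
  rw [finsum_eq_sum_of_support_subset (s := t), RatFunc.intDegree, c5_natDegree h1 t t1,
    c5_natDegree h2 t t2]
  · push_cast
    rw [← Finset.sum_sub_distrib]
    refine Finset.sum_congr rfl fun Q _ => ?_
    rw [ordK]
    ring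
  · intro Q hQ
    rw [Function.mem_support] at hQ
    by_contra hn
    apply hQ
    rw [ordK, c5_mult_eq_zero fun h => hn (mem_coe.2 (t1 Q h)),
      c5_mult_eq_zero fun h => hn (mem_coe.2 (t2 Q h))]
    simp

theorem c5_supp {ℓ : ℕ} (lg : F → ZMod ℓ) (P : Prm F) {x : RatFunc F} (hx : x ≠ 0) :
    (Function.support fun Q : Prm F =>
      (if Q = P then 0 else (ordK Q x : ZMod ℓ) * sy lg P.1 Q.1)).Finite := by
  refine (ordK_finite hx).subset fun Q hQ => ?_
  rw [Function.mem_support] at hQ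
  intro h
  apply hQ
  rw [h]
  simp

theorem rsK_mul {ℓ : ℕ} {lg : F → ZMod ℓ} (hlg : IsLog ℓ lg) (P : Prm F) {x y : RatFunc F}
    (hx : x ≠ 0) (hy : y ≠ 0) : rsK lg P (x * y) = rsK lg P x + rsK lg P y := by
  have h : (fun Q : Prm F => (if Q = P then 0 else (ordK Q (x * y) : ZMod ℓ) * sy lg P.1 Q.1)) =
      fun Q : Prm F => (if Q = P then 0 else (ordK Q x : ZMod ℓ) * sy lg P.1 Q.1) +
        (if Q = P then 0 else (ordK Q y : ZMod ℓ) * sy lg P.1 Q.1) := by
    funext Q
    split_ifs with h1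
    · rw [add_zero]
    · rw [ordK_mul Q hx hy]
      push_cast
      ring
  rw [rsK, rsK, rsK, h, finsum_add_distrib (c5_supp lg P hx) (c5_supp lg P hy), lcK_mul hx hy,
    hlg.1 _ _ (lcK_ne_zero hx) (lcK_ne_zero hy)]
  ring

theorem c5_rsK_one {ℓ : ℕ} {lg : F → ZMod ℓ} (hlg : IsLog ℓ lg) (P : Prm F) :
    rsK lg P 1 = 0 := by
  have h := rsK_mul hlg P (one_ne_zero (α := RatFunc F)) (one_ne_zero (α := RatFunc F))
  rw [mul_one] at h
  exact add_eq_left.1 h.symm

theorem rsK_pow {ℓ : ℕ} {lg : F → ZMod ℓ} (hlg : IsLog ℓ lg) (P : Prm F) {x : RatFunc F}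
    (hx : x ≠ 0) (n : ℕ) : rsK lg P (x ^ n) = n * rsK lg P x := by
  induction n with
  | zero => rw [pow_zero, c5_rsK_one hlg, Nat.cast_zero, zero_mul]
  | succ n ih =>
    rw [pow_succ, rsK_mul hlg P (pow_ne_zero n hx) hx, ih]
    push_cast
    ring

theorem rsK_poly {ℓ : ℕ} {lg : F → ZMod ℓ} (hlg : IsLog ℓ lg) (P : Prm F) {f : F[X]}
    (hf : ¬ P.1 ∣ f) : rsK lg P (algebraMap F[X] (RatFunc F) f) = sy lg P.1 f := by
  classical
  have h0 : f ≠ 0 := fun h => hf (h ▸ dvd_zero _)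
  set t : Finset (Prm F) := (c5_dvd_finite h0).toFinset with ht
  have t1 : ∀ Q : Prm F, Q.1 ∣ f → Q ∈ t := fun Q hQ => (c5_dvd_finite h0).mem_toFinset.2 hQ
  have t2 : ∀ Q ∈ t, Q.1 ∣ f := fun Q hQ => (c5_dvd_finite h0).mem_toFinset.1 hQ
  have hQP : ∀ Q ∈ t, ¬ P.1 ∣ Q.1 := by
    intro Q hQ h
    exact hf (h.trans (t2 Q hQ))
  have hc : f.leadingCoeff ≠ 0 := leadingCoeff_ne_zero.2 h0
  have h1 : sy lg P.1 f = P.1.natDegree * lg f.leadingCoeff +
      ∑ Q ∈ t, (multiplicity Q.1 f : ZMod ℓ) * sy lg P.1 Q.1 := by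
    conv_lhs => rw [c5_factor h0 t t1]
    rw [sy_mul hlg P.2.1 P.2.2, sy_C hlg P.2.1 hc, sy_prod hlg P.2.1 P.2.2]
    · congr 1
      refine Finset.sum_congr rfl fun Q hQ => ?_
      rw [sy_pow hlg P.2.1 P.2.2 (hQP Q hQ)]
    · intro Q hQ h
      exact hQP Q hQ (P.2.2.prime.dvd_of_dvd_pow h)
    · intro h
      exact P.2.2.not_isUnit (isUnit_of_dvd_unit h (isUnit_C.2 hc.isUnit))
    · intro h
      obtain ⟨Q, hQ, h2⟩ := (Prime.dvd_finsetProd_iff P.2.2.prime _).1 h
      exact hQP Q hQ (P.2.2.prime.dvd_of_dvd_pow h2)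
  rw [h1, rsK, lcK_poly, finsum_eq_sum_of_support_subset (s := t), add_comm]
  · congr 1
    refine Finset.sum_congr rfl fun Q hQ => ?_
    have hne : Q ≠ P := by
      rintro rfl
      exact hQP Q hQ dvd_rfl
    rw [if_neg hne, ordK_poly Q h0]
    push_cast
    rfl
  · intro Q hQ
    rw [Function.mem_support] at hQ
    by_contra hn
    apply hQ
    rw [ordK_poly Q h0, c5_mult_eq_zero fun h => hn (mem_coe.2 (t1 Q h))]
    simp

theorem rsK_self {ℓ : ℕ} {lg : F → ZMod ℓ} (hlg : IsLog ℓ lg) (P : Prm F) :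
    rsK lg P (algebraMap F[X] (RatFunc F) P.1) = 0 := by
  have h : (fun Q : Prm F => (if Q = P then 0 else
      (ordK Q (algebraMap F[X] (RatFunc F) P.1) : ZMod ℓ) * sy lg P.1 Q.1)) = fun _ => 0 := by
    funext Q
    split_ifs with h1
    · rfl
    · rw [ordK_prime, if_neg h1]
      simp
  have h1 : lg 1 = 0 := by
    have h := hlg.1 1 1 one_ne_zero one_ne_zero
    rw [mul_one] at h
    exact (add_eq_left.1 h.symm)
  rw [rsK, h, finsum_zero, lcK_poly, P.2.1.leadingCoeff, h1, mul_zero, add_zero]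

end Global

end Pool.Agent.Helper54.PT
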