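import Pool.Agent.Helper54.PT.DefsD

/-!
# Module C5a: the order of a rational function at a prime
-/

set_option autoImplicit false

namespace Pool.Agent.Helper54.PT

open Polynomial Finset Filter Topology Module Pool.Agent.Helper47.BSD

section Global

variable {F : Type} [Field F]

theorem c5_prime (Q : Prm F) : Prime Q.1 := Q.2.2.prime

theorem c5_fin (Q : Prm F) {f : F[X]} (hf : f ≠ 0) : FiniteMultiplicity Q.1 f :=
  FiniteMultiplicity.of_prime_left (c5_prime Q) hf

theorem c5_mult_mul (Q : Prm F) {f g : F[X]} (hf : f ≠ 0) (hg : g ≠ 0) :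
    multiplicity Q.1 (f * g) = multiplicity Q.1 f + multiplicity Q.1 g :=
  multiplicity_mul (c5_prime Q) (c5_fin Q (mul_ne_zero hf hg))

/-- the order of a quotient of two polynomials -/
theorem c5_ordK_eq (Q : Prm F) {x : RatFunc F} {f g : F[X]} (hf : f ≠ 0) (hg : g ≠ 0)
    (h : x = algebraMap F[X] (RatFunc F) f / algebraMap F[X] (RatFunc F) g) :
    ordK Q x = (multiplicity Q.1 f : ℤ) - multiplicity Q.1 g := by
  have hx : x ≠ 0 := by
    rw [h]
    exact div_ne_zero (RatFunc.algebraMap_ne_zero hf) (RatFunc.algebraMap_ne_zero hg)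
  have h1 := (RatFunc.num_mul_eq_mul_denom_iff hg).2 h
  have h2 := congrArg (multiplicity Q.1) h1
  rw [c5_mult_mul Q (RatFunc.num_ne_zero hx) hg, c5_mult_mul Q hf (RatFunc.denom_ne_zero x)] at h2
  rw [ordK]
  have h3 : (multiplicity Q.1 x.num : ℤ) + multiplicity Q.1 g =
      multiplicity Q.1 f + multiplicity Q.1 x.denom := by exact_mod_cast h2
  linarith

theorem c5_rep {x : RatFunc F} (hx : x ≠ 0) : x.num ≠ 0 ∧ x.denom ≠ 0 ∧
    x = algebraMap F[X] (RatFunc F) x.num / algebraMap F[X] (RatFunc F) x.denom :=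
  ⟨RatFunc.num_ne_zero hx, RatFunc.denom_ne_zero x, (RatFunc.num_div_denom x).symm⟩

/-- C5: the functions `ordK`, `lcK`, `rsK` -/
theorem ordK_mul (Q : Prm F) {x y : RatFunc F} (hx : x ≠ 0) (hy : y ≠ 0) :
    ordK Q (x * y) = ordK Q x + ordK Q y := by
  obtain ⟨a1, a2, a3⟩ := c5_rep hx
  obtain ⟨b1, b2, b3⟩ := c5_rep hy
  rw [c5_ordK_eq Q (mul_ne_zero a1 b1) (mul_ne_zero a2 b2) (x := x * y), c5_mult_mul Q a1 b1,
    c5_mult_mul Q a2 b2, ordK, ordK]
  · push_cast
    ring
  · rw [map_mul, map_mul, ← div_mul_div_comm, ← a3, ← b3]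

theorem c5_ordK_one (Q : Prm F) : ordK Q (1 : RatFunc F) = 0 := by
  have h := ordK_mul Q (one_ne_zero (α := RatFunc F)) (one_ne_zero (α := RatFunc F))
  rw [mul_one] at h
  linarith

theorem ordK_inv (Q : Prm F) {x : RatFunc F} (hx : x ≠ 0) : ordK Q x⁻¹ = -ordK Q x := by
  have h := ordK_mul Q hx (inv_ne_zero hx)
  rw [mul_inv_cancel₀ hx, c5_ordK_one] at h
  linarith

theorem ordK_pow (Q : Prm F) {x : RatFunc F} (hx : x ≠ 0) (n : ℕ) :
    ordK Q (x ^ n) = n * ordK Q x := by
  induction n with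
  | zero => rw [pow_zero, c5_ordK_one, Nat.cast_zero, zero_mul]
  | succ n ih =>
    rw [pow_succ, ordK_mul Q (pow_ne_zero n hx) hx, ih]
    push_cast
    ring

theorem c5_mult_one (Q : Prm F) : multiplicity Q.1 (1 : F[X]) = 0 :=
  multiplicity_eq_zero.2 fun h => Q.2.2.not_isUnit (isUnit_of_dvd_one h)

theorem ordK_poly (Q : Prm F) {f : F[X]} (hf : f ≠ 0) :
    ordK Q (algebraMap F[X] (RatFunc F) f) = multiplicity Q.1 f := by
  rw [c5_ordK_eq Q hf one_ne_zero (x := algebraMap F[X] (RatFunc F) f)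
    (by rw [map_one, div_one]), c5_mult_one]
  simp

theorem ordK_prime (Q P : Prm F) :
    ordK Q (algebraMap F[X] (RatFunc F) P.1) = if Q = P then 1 else 0 := by
  rw [ordK_poly Q P.2.1.ne_zero]
  split_ifs with h
  · rw [h, multiplicity_self]
    simp
  · rw [multiplicity_eq_zero.2, Nat.cast_zero]
    intro h2
    have h3 : Associated Q.1 P.1 := Q.2.2.associated_of_dvd P.2.2 h2
    exact h (Subtype.ext (eq_of_monic_of_associated Q.2.1 P.2.1 h3))

theorem ordK_const (Q : Prm F) {c : F} (hc : c ≠ 0) :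
    ordK Q (algebraMap F[X] (RatFunc F) (C c)) = 0 := by
  rw [ordK_poly Q (C_ne_zero.2 hc), multiplicity_eq_zero.2, Nat.cast_zero]
  intro h
  exact Q.2.2.not_isUnit (isUnit_of_dvd_unit h (isUnit_C.2 hc.isUnit))

theorem ordK_add (Q : Prm F) {x y : RatFunc F} (hx : x ≠ 0) (hy : y ≠ 0) (hxy : x + y ≠ 0) :
    min (ordK Q x) (ordK Q y) ≤ ordK Q (x + y) := by
  obtain ⟨a1, a2, a3⟩ := c5_rep hx
  obtain ⟨b1, b2, b3⟩ := c5_rep hy
  have hd := mul_ne_zero a2 b2
  have e1 : x = algebraMap F[X] (RatFunc F) (x.num * y.denom) /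
      algebraMap F[X] (RatFunc F) (x.denom * y.denom) := by
    rw [map_mul, map_mul, mul_div_mul_right _ _ (RatFunc.algebraMap_ne_zero b2)]
    exact a3
  have e2 : y = algebraMap F[X] (RatFunc F) (x.denom * y.num) /
      algebraMap F[X] (RatFunc F) (x.denom * y.denom) := by
    rw [map_mul, map_mul, mul_div_mul_left _ _ (RatFunc.algebraMap_ne_zero a2)]
    exact b3
  have e3 : x + y = algebraMap F[X] (RatFunc F) (x.num * y.denom + x.denom * y.num) /
      algebraMap F[X] (RatFunc F) (x.denom * y.denom) := by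
    rw [map_add, add_div, ← e1, ← e2]
  have hn : x.num * y.denom + x.denom * y.num ≠ 0 := by
    intro h
    rw [h, map_zero, zero_div] at e3
    exact hxy e3
  have hA := mul_ne_zero a1 b2
  have hB := mul_ne_zero a2 b1
  rw [c5_ordK_eq Q hA hd e1, c5_ordK_eq Q hB hd e2, c5_ordK_eq Q hn hd e3]
  have h5 : min (multiplicity Q.1 (x.num * y.denom)) (multiplicity Q.1 (x.denom * y.num)) ≤
      multiplicity Q.1 (x.num * y.denom + x.denom * y.num) := by
    refine (c5_fin Q hn).le_multiplicity_of_pow_dvd (dvd_add ?_ ?_)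
    · exact (pow_dvd_pow _ (min_le_left _ _)).trans (pow_multiplicity_dvd _ _)
    · exact (pow_dvd_pow _ (min_le_right _ _)).trans (pow_multiplicity_dvd _ _)
  have h6 : min (multiplicity Q.1 (x.num * y.denom) : ℤ) (multiplicity Q.1 (x.denom * y.num)) ≤
      (multiplicity Q.1 (x.num * y.denom + x.denom * y.num) : ℤ) := by exact_mod_cast h5
  rw [min_sub_sub_right]
  linarith

/-- finitely many monic primes divide a nonzero polynomial -/
theorem c5_dvd_finite {f : F[X]} (hf : f ≠ 0) : {Q : Prm F | Q.1 ∣ f}.Finite := by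
  classical
  have h : ((fun Q : Prm F => Q.1) '' {Q : Prm F | Q.1 ∣ f}).Finite := by
    refine ((UniqueFactorizationMonoid.normalizedFactors f).toFinset.finite_toSet).subset ?_
    rintro _ ⟨Q, hQ, rfl⟩
    rw [mem_coe, Multiset.mem_toFinset]
    obtain ⟨q, hq, h2⟩ := UniqueFactorizationMonoid.exists_mem_normalizedFactors_of_dvd hf Q.2.2 hQ
    have h3 : Q.1 = q := eq_of_monic_of_associated Q.2.1
      (by
        have := UniqueFactorizationMonoid.normalize_normalized_factor q hq
        rw [← this]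
        exact Polynomial.monic_normalize
          (UniqueFactorizationMonoid.prime_of_normalized_factor q hq).ne_zero) h2
    have h4 : Q.1 ∈ UniqueFactorizationMonoid.normalizedFactors f := by
      rw [h3]
      exact hq
    exact h4
  exact Set.Finite.of_finite_image h Subtype.val_injective.injOn

theorem c5_mult_eq_zero {Q : Prm F} {f : F[X]} (h : ¬ Q.1 ∣ f) : multiplicity Q.1 f = 0 :=
  multiplicity_eq_zero.2 h

theorem ordK_finite {x : RatFunc F} (hx : x ≠ 0) : {Q : Prm F | ordK Q x ≠ 0}.Finite := by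
  refine ((c5_dvd_finite (RatFunc.num_ne_zero hx)).union
    (c5_dvd_finite (RatFunc.denom_ne_zero x))).subset ?_
  intro Q hQ
  by_contra h
  rw [Set.mem_union, not_or] at h
  apply hQ
  rw [ordK, c5_mult_eq_zero h.1, c5_mult_eq_zero h.2]
  simp

end Global

end Pool.Agent.Helper54.PT
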