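import Pool.Agent.Helper31.TW.St2

set_option autoImplicit false

/-!
Project TW (MP_434a84_lc), module F1: rays and linear sets.
-/

namespace Pool.Agent.Helper19.TW

open Pool.Agent.Helper31.TW
open Pool.Agent.Helper15.TS (lin)

lemma f1_toZ {n : ℕ} (c : Fin n → ℕ) (q : Fin 3 → Fin n → ℕ) (w : Fin 3 → ℕ) (a : Fin 3 → ℤ)
    (hwa : ∀ j, (w j : ℤ) = a j) :
    toZ (c + ∑ j, w j • q j) = toZ c + ∑ j, a j • toZ (q j) := by
  funext i
  simp only [Pool.Agent.Helper31.TW.toZ, Pi.add_apply, Finset.sum_apply, Pi.smul_apply, smul_eq_mul, Nat.cast_add,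
    Nat.cast_sum, Nat.cast_mul]
  congr 1
  exact Finset.sum_congr rfl (fun j _ => by rw [hwa j])

/-- two comparable members of a sequence of labelled vectors -/
lemma f1_wqo (R : Finset ((Fin 3 → ℕ) × Finset (Fin 3 → ℕ)))
    (r : ℕ → (Fin 3 → ℕ) × Finset (Fin 3 → ℕ)) (hr : ∀ i, r i ∈ R)
    (t : ℕ → (Fin 3 → ℕ) → ℕ) :
    ∃ i i' : ℕ, i < i' ∧ r i = r i' ∧ ∀ p ∈ (r i).2, t i p ≤ t i' p := by
  classical
  let U : Finset (Fin 3 → ℕ) := R.biUnion (fun x => x.2)
  let f : ℕ → ((↥R ⊕ ↥U) → ℕ) := fun i =>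
    Sum.elim (fun x => if r i = x.1 then 1 else 0) (fun p => t i p.1)
  have hpwo : (Set.univ : Set ((↥R ⊕ ↥U) → ℕ)).IsPWO := Set.isPWO_of_wellQuasiOrderedLE _
  obtain ⟨g, hg⟩ := hpwo.exists_monotone_subseq (f := f) (fun _ => Set.mem_univ _)
  have h01 : g 0 < g 1 := g.strictMono Nat.zero_lt_one
  have hle : f (g 0) ≤ f (g 1) := hg (Nat.zero_le 1)
  have hrr : r (g 0) = r (g 1) := by
    have h1 := hle (Sum.inl ⟨r (g 0), hr _⟩)
    by_contra hne
    have h2 : ¬ (r (g 1) = r (g 0)) := fun h => hne h.symm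
    simp only [f, Sum.elim_inl, if_true, if_neg h2] at h1
    omega
  refine ⟨g 0, g 1, h01, hrr, ?_⟩
  intro p hp
  have hpU : p ∈ U := Finset.mem_biUnion.mpr ⟨r (g 0), hr _, hp⟩
  exact hle (Sum.inr ⟨p, hpU⟩)

theorem hF1 (hEV1 : StEV1) : StF1 := by
  intro n M 𝓐 K hDep c q R hR l hl κ hEv
  classical
  obtain ⟨K0, hK0⟩ := hEv
  obtain ⟨K1, hK1⟩ : ∃ K1 : ℕ, K1 = K0 + ∑ j, (κ j).natAbs := ⟨_, rfl⟩
  let v : ℕ → Fin 3 → ℕ := fun i j => (κ j + ((K1 + i : ℕ) : ℤ) * (l j : ℤ)).toNat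
  have hv : ∀ i j, ((v i j : ℕ) : ℤ) = κ j + ((K1 + i : ℕ) : ℤ) * (l j : ℤ) := by
    intro i j
    show ((Int.toNat _ : ℕ) : ℤ) = _
    rw [Int.toNat_of_nonneg]
    have h1 : (κ j).natAbs ≤ ∑ j, (κ j).natAbs :=
      Finset.single_le_sum (f := fun j => (κ j).natAbs) (fun _ _ => Nat.zero_le _)
        (Finset.mem_univ j)
    have h2 : (1 : ℤ) ≤ (l j : ℤ) := by exact_mod_cast hl j
    have h3 : -((κ j).natAbs : ℤ) ≤ κ j := by omega
    have h4 : ((κ j).natAbs : ℤ) ≤ ((K1 + i : ℕ) : ℤ) := by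
      have : (κ j).natAbs ≤ K1 + i := by omega
      exact_mod_cast this
    have h5 : (0 : ℤ) ≤ ((K1 + i : ℕ) : ℤ) := Int.natCast_nonneg _
    nlinarith
  -- membership in the linear sets gives `M`
  have hM : ∀ (w : Fin 3 → ℕ) (a : Fin 3 → ℤ), (∀ j, (w j : ℤ) = a j) →
      (∃ r ∈ R, w ∈ lin r.1 r.2) → M (toZ c + ∑ j, a j • toZ (q j)) := by
    intro w a hwa hw
    rw [← f1_toZ c q w a hwa]
    exact (hR w).mpr hw
  have hex : ∀ i : ℕ, ∃ r ∈ R, v i ∈ lin r.1 r.2 := by
    intro i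
    apply (hR (v i)).mp
    rw [f1_toZ c q (v i) (fun j => κ j + ((K1 + i : ℕ) : ℤ) * (l j : ℤ)) (hv i)]
    have h1 := hK0 (K1 + i) (by omega)
    convert h1 using 1
    rw [Finset.smul_sum, add_assoc, ← Finset.sum_add_distrib]
    congr 1
    refine Finset.sum_congr rfl (fun j _ => ?_)
    rw [smul_smul, ← add_smul]
  choose r hrR hrl using hex
  have hrl' : ∀ i, ∃ t : (Fin 3 → ℕ) → ℕ, v i = (r i).1 + ∑ p ∈ (r i).2, t p • p := hrl
  choose t ht using hrl'
  obtain ⟨i, i', hii, hrr, hle⟩ := f1_wqo R r hrR t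
  set P : Finset (Fin 3 → ℕ) := (r i).2.filter (fun p => t i p < t i' p ∧ p ≠ 0) with hP
  let μ : (Fin 3 → ℕ) → ℕ := fun p => t i' p - t i p
  have hPsub : P ⊆ (r i).2 := Finset.filter_subset _ _
  have hPmem : ∀ p ∈ P, t i p < t i' p ∧ p ≠ 0 := fun p hp => (Finset.mem_filter.mp hp).2
  have hsum : ∑ p ∈ P, μ p • p = (i' - i) • l := by
    have h1 : ∑ p ∈ P, μ p • p = ∑ p ∈ (r i).2, μ p • p := by
      apply Finset.sum_subset hPsub
      intro p hp hnp
      by_cases h0 : p = 0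
      · rw [h0, smul_zero]
      · have h2 : ¬ (t i p < t i' p) := fun h => hnp (Finset.mem_filter.mpr ⟨hp, h, h0⟩)
        have h3 : μ p = 0 := by
          show t i' p - t i p = 0
          omega
        rw [h3, zero_smul]
    have h2 : v i' = v i + ∑ p ∈ (r i).2, μ p • p := by
      rw [ht i', ht i, ← hrr, add_assoc, ← Finset.sum_add_distrib]
      congr 1
      refine Finset.sum_congr rfl (fun p hp => ?_)
      rw [← add_smul]
      congr 1
      have := hle p hp
      show t i' p = t i p + (t i' p - t i p)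
      omega
    have h3 : v i' = v i + (i' - i) • l := by
      funext j
      have e1 := hv i' j
      have e2 := hv i j
      have e3 : ((i' - i : ℕ) : ℤ) = (i' : ℤ) - (i : ℤ) := by
        rw [Nat.cast_sub hii.le]
      have : ((v i' j : ℕ) : ℤ) = ((v i j + (i' - i) * l j : ℕ) : ℤ) := by
        rw [Nat.cast_add, Nat.cast_mul, e1, e2, e3]
        push_cast
        ring
      simp only [Pi.add_apply, Pi.smul_apply, smul_eq_mul]
      exact_mod_cast this
    rw [h1]
    exact add_left_cancel (h2.symm.trans h3)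
  have hfour : ∀ t' : (Fin 3 → ℕ) → ℕ, M (toZ c + ∑ j : Fin 3,
      (κ j + ((K1 + i : ℕ) : ℤ) * (l j : ℤ) + ∑ p ∈ P, (t' p : ℤ) * (p j : ℤ)) • toZ (q j)) := by
    intro t'
    refine hM (v i + ∑ p ∈ P, t' p • p) _ ?_ ⟨r i, hrR i, ?_⟩
    · intro j
      simp only [Pi.add_apply, Finset.sum_apply, Pi.smul_apply, smul_eq_mul]
      rw [Nat.cast_add, hv i j, Nat.cast_sum]
      simp only [Nat.cast_mul]
    · refine ⟨fun p => t i p + if p ∈ P then t' p else 0, ?_⟩
      have h1 : ∑ p ∈ P, t' p • p = ∑ p ∈ (r i).2, (if p ∈ P then t' p else 0) • p := by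
        rw [← Finset.sum_subset hPsub]
        · refine Finset.sum_congr rfl (fun p hp => ?_)
          rw [if_pos hp]
        · intro p _ hnp
          rw [if_neg hnp, zero_smul]
      rw [h1, ht i, add_assoc, ← Finset.sum_add_distrib]
      congr 1
      exact Finset.sum_congr rfl (fun p hp => by rw [← add_smul])
  refine ⟨r i, hrR i, P, hPsub, μ, i' - i, K1 + i, by omega, ?_, hsum, hfour, ?_⟩
  · intro p hp
    refine ⟨?_, (hPmem p hp).2⟩
    have := (hPmem p hp).1
    show 1 ≤ t i' p - t i p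
    omega
  · intro p hp s
    have h2 := (hEV1 n M 𝓐 K hDep).2.1
    apply h2
    intro k0
    set N : ℕ := k0 + s.natAbs with hN
    refine ⟨K1 + i + N * (i' - i), ?_, ?_⟩
    · have h3 : N * 1 ≤ N * (i' - i) := Nat.mul_le_mul_left _ (by omega)
      omega
    · let t' : (Fin 3 → ℕ) → ℕ := fun p' => ((N : ℤ) * (μ p' : ℤ) + if p' = p then s else 0).toNat
      have hμp : 1 ≤ μ p := by
        have := (hPmem p hp).1
        show 1 ≤ t i' p - t i p
        omega
      have ht' : ∀ p' ∈ P, (t' p' : ℤ) = (N : ℤ) * (μ p' : ℤ) + if p' = p then s else 0 := by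
        intro p' _
        show ((Int.toNat _ : ℕ) : ℤ) = _
        rw [Int.toNat_of_nonneg]
        by_cases hpp : p' = p
        · rw [if_pos hpp, hpp]
          have h4 : (1 : ℤ) ≤ (μ p : ℤ) := by exact_mod_cast hμp
          have h5 : -((s.natAbs : ℕ) : ℤ) ≤ s := by omega
          have h6 : ((s.natAbs : ℕ) : ℤ) ≤ (N : ℤ) := by
            have : s.natAbs ≤ N := by omega
            exact_mod_cast this
          have h7 : (0 : ℤ) ≤ (N : ℤ) := Int.natCast_nonneg _
          nlinarith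
        · rw [if_neg hpp, add_zero]
          positivity
      have h8 := hfour t'
      have h9 : ∀ j : Fin 3, ∑ p' ∈ P, (t' p' : ℤ) * (p' j : ℤ) =
          ((N * (i' - i) : ℕ) : ℤ) * (l j : ℤ) + s * (p j : ℤ) := by
        intro j
        have e1 : ∑ p' ∈ P, (t' p' : ℤ) * (p' j : ℤ) =
            ∑ p' ∈ P, ((N : ℤ) * ((μ p' : ℤ) * (p' j : ℤ)) +
              (if p' = p then s * (p j : ℤ) else 0)) := by
          refine Finset.sum_congr rfl (fun p' hp' => ?_)
          rw [ht' p' hp']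
          by_cases hpp : p' = p
          · rw [if_pos hpp, if_pos hpp, hpp]; ring
          · rw [if_neg hpp, if_neg hpp]; ring
        rw [e1, Finset.sum_add_distrib, ← Finset.mul_sum, Finset.sum_ite_eq' P p, if_pos hp]
        congr 1
        have e2 := congrFun hsum j
        simp only [Finset.sum_apply, Pi.smul_apply, smul_eq_mul] at e2
        have e3 : ∑ p' ∈ P, (μ p' : ℤ) * (p' j : ℤ) = (((i' - i) * l j : ℕ) : ℤ) := by
          rw [← e2, Nat.cast_sum]
          exact Finset.sum_congr rfl (fun p' _ => by rw [Nat.cast_mul])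
        rw [e3, Nat.cast_mul, Nat.cast_mul]
        ring
      have h10 : toZ c + ∑ j, κ j • toZ (q j) + s • ∑ j : Fin 3, (p j : ℤ) • toZ (q j) +
          (((K1 + i + N * (i' - i) : ℕ) : ℤ)) • ∑ j, (l j : ℤ) • toZ (q j) =
          toZ c + ∑ j : Fin 3, (κ j + ((K1 + i : ℕ) : ℤ) * (l j : ℤ) +
            ∑ p ∈ P, (t' p : ℤ) * (p j : ℤ)) • toZ (q j) := by
        rw [Finset.smul_sum, Finset.smul_sum, add_assoc, add_assoc, ← Finset.sum_add_distrib,
          ← Finset.sum_add_distrib]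
        congr 1
        refine Finset.sum_congr rfl (fun j _ => ?_)
        rw [h9 j, smul_smul, smul_smul, ← add_smul, ← add_smul]
        congr 1
        rw [Nat.cast_add (K1 + i)]
        ring
      rw [h10]
      exact h8

end Pool.Agent.Helper19.TW
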