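import Pool.Agent.Helper31.TW.St2

set_option autoImplicit false

/-!
Project TW (MP_434a84_lc), module GNR: generic points of a wall near a positive point.
-/

namespace Pool.Agent.Helper19.TW

open Pool.Agent.Helper31.TW

theorem hGNR (hGVE : StGVE) (hNEA : StNEA) : StGNR := by
  intro n 𝓐 hN α hα y0 hpos h0
  classical
  obtain ⟨w1, hw1, hw2⟩ := hGVE n α (𝓐.filter (fun γ => γ ≠ α ∧ dot γ y0 = 0)) (by
    intro β hβ
    rw [Finset.mem_filter] at hβ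
    exact hN.2 α hα β hβ.1 (fun h => hβ.2.1 h.symm))
  have hw3 : ∀ γ ∈ 𝓐, γ ≠ α → dot γ y0 = 0 → dot γ w1 ≠ 0 := by
    intro γ hγ hne hz
    exact hw2 γ (Finset.mem_filter.mpr ⟨hγ, hne, hz⟩)
  obtain ⟨N0, hN0⟩ := hNEA n 𝓐 y0 w1 hpos
  refine ⟨w1, hw1, hw3, N0, ?_⟩
  intro N hNN
  obtain ⟨hp, hs, hz⟩ := hN0 N hNN
  refine ⟨hp, ?_, ?_⟩
  · rw [hz α hα h0, hw1]
  · intro β hβ hne
    by_cases hb : dot β y0 = 0
    · rw [hz β hβ hb]
      exact hw3 β hβ hne hb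
    · intro hcon
      have h1 := hs β hβ hb
      rw [hcon, Int.sign_zero] at h1
      exact hb (Int.sign_eq_zero_iff_zero.mp h1.symm)

end Pool.Agent.Helper19.TW
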